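import Pool.Agent.H.MP_fe632d_an.A

set_option autoImplicit false

namespace Pool.Agent.H.MP_bfd36a_an

open Set Filter Topology MeasureTheory Function ProbabilityTheory Pool.Agent.H.MP_fe632d_an
open scoped ENNReal

variable {X : Type*} [MeasurableSpace X]

/-- invertible measure-preserving transformations -/
def Aut (μ : Measure X) : Subgroup (Equiv.Perm X) where
  carrier := {σ | MeasurePreserving σ μ μ ∧ MeasurePreserving ⇑σ⁻¹ μ μ}
  mul_mem' a b := ⟨a.1.comp b.1, b.2.comp a.2⟩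
  one_mem' := ⟨MeasurePreserving.id μ, MeasurePreserving.id μ⟩
  inv_mem' a := ⟨a.2, a.1⟩

theorem linv {Y : Type*} [MeasurableSpace Y] {μ : Measure X} {ν : Measure Y} {f : X → Y} {g : Y → X}
    (hf : MeasurePreserving f μ ν) (hg : Measurable g) (h : ∀ᵐ x ∂μ, g (f x) = x) : MeasurePreserving g ν μ :=
  ⟨hg, by rw [← hf.map_eq, Measure.map_map hg hf.measurable, Measure.map_congr (f := g ∘ f) (g := id) h, Measure.map_id]⟩

theorem comb {μ : Measure X} {ι : Type} [Countable ι] [Nonempty ι] {P Q : ι → Set X} (mP : ∀ i, MeasurableSet (P i))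
    (mQ : ∀ i, MeasurableSet (Q i)) (dP : Pairwise (Disjoint on P)) (dQ : Pairwise (Disjoint on Q))
    (α β : ι → X → X) (hα : ∀ i, MeasurePreserving (α i) (μ.restrict (P i)) (μ.restrict (Q i)))
    (hβ : ∀ i, Measurable (β i)) (h : ∀ i, ∀ᵐ x ∂μ.restrict (P i), β i (α i x) = x) :
    ∃ f g : X → X, MeasurePreserving f (μ.restrict (⋃ i, P i)) (μ.restrict (⋃ i, Q i)) ∧ Measurable g ∧
      (∀ᵐ x ∂μ.restrict (⋃ i, P i), g (f x) = x) ∧ ∀ i, EqOn f (α i) (P i) := by
  obtain ⟨f, f1, f2⟩ := exists_measurable_piecewise P mP α (fun i => (hα i).measurable) fun i j c x d =>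
    ((dP c).le_bot d).elim
  obtain ⟨g, g1, g2⟩ := exists_measurable_piecewise Q mQ β hβ fun i j c x d => ((dQ c).le_bot d).elim
  refine ⟨f, g, ⟨f1, ?_⟩, g1, (ae_restrict_iUnion_iff _ _).mpr fun i => ?_, f2⟩
  · rw [Measure.restrict_iUnion dP mP, Measure.restrict_iUnion dQ mQ, Measure.map_sum f1.aemeasurable]
    exact congrArg _ (funext fun i => (Measure.map_congr ((ae_restrict_mem (mP i)).mono (f2 i))).trans (hα i).map_eq)
  · filter_upwards [h i, ae_restrict_mem (mP i), (hα i).quasiMeasurePreserving.ae (ae_restrict_mem (mQ i))] with x a b c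
    rw [f2 i b, g2 i c, a]

variable [StandardBorelSpace X] {μ : Measure X}

theorem realize {f g : X → X} (hf : MeasurePreserving f μ μ) (hg : Measurable g) (h : ∀ᵐ x ∂μ, g (f x) = x) :
    ∃ R ∈ Aut μ, ⇑R =ᵐ[μ] f := by
  classical
  have hg' := linv hf hg h
  have m2 : MeasurableSet {x | f (g x) = x} := measurableSet_eq_fun (hf.measurable.comp hg) measurable_id
  have k : ∀ᵐ y ∂μ, f (g y) = y := by
    rw [← hf.map_eq, ae_map_iff hf.measurable.aemeasurable m2]
    filter_upwards [h] with x c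
    rw [c]
  let B := ⋂ n : ℕ, ⋂ m : ℕ, f^[n] ∘ g^[m] ⁻¹' ({x | g (f x) = x} ∩ {x | f (g x) = x})
  have mB : MeasurableSet B := .iInter fun n => .iInter fun m => ((hf.measurable.iterate n).comp (hg.iterate m))
    ((measurableSet_eq_fun (hg.comp hf.measurable) measurable_id).inter m2)
  have e : ∀ x, x ∈ B ↔ ∀ n m : ℕ, f^[n] (g^[m] x) ∈ {x | g (f x) = x} ∩ {x | f (g x) = x} := by simp [B]
  have aB : ∀ᵐ x ∂μ, x ∈ B := by
    simp only [e, ae_all_iff]
    exact fun n m => ((hf.iterate n).comp (hg'.iterate m)).quasiMeasurePreserving.ae (h.and k)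
  have b1 : ∀ x ∈ B, g x ∈ B := fun x c => (e _).mpr fun n m => (e x).mp c n (m + 1)
  have b2 : ∀ x ∈ B, f x ∈ B := fun x c => (e _).mpr fun n m => by
    cases m with
    | zero => exact (e x).mp c (n + 1) 0
    | succ m => rw [iterate_succ_apply, show g (f x) = x from ((e x).mp c 0 0).1]; exact (e x).mp c n m
  have u : B.piecewise f id =ᵐ[μ] f := aB.mono fun x c => piecewise_eq_of_mem _ _ _ c
  exact ⟨⟨B.piecewise f id, B.piecewise g id, fun x => by
      by_cases c : x ∈ B <;> simp [c, b2]; exact ((e x).mp c 0 0).1, fun x => by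
      by_cases c : x ∈ B <;> simp [c, b1]; exact ((e x).mp c 0 0).2⟩,
    ⟨hf.congr (hf.measurable.piecewise mB measurable_id) u.symm, hg'.congr (hg.piecewise mB measurable_id)
      (aB.mono fun x c => (piecewise_eq_of_mem _ _ _ c).symm)⟩, u⟩

theorem qx (ν : Measure X) [IsProbabilityMeasure ν] [NullSingletonClass ν] :
    ∃ (q : Ioo (0 : ℝ) 1 → X) (p : X → Ioo (0 : ℝ) 1), MeasurePreserving q U ν ∧ MeasurePreserving p ν U ∧
      ∀ᵐ x ∂ν, q (p x) = x := by
  have : Nonempty X := nonempty_of_isProbabilityMeasure ν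
  have : Nonempty (Ioo (0 : ℝ) 1) := nonempty_of_isProbabilityMeasure U
  have e := measurableEmbedding_embeddingReal X
  have := Measure.isProbabilityMeasure_map (μ := ν) e.measurable.aemeasurable
  have : NullSingletonClass (ν.map (embeddingReal X)) := ⟨fun y => by
    rw [e.map_apply]; exact (subsingleton_singleton.preimage e.injective).measure_zero _⟩
  obtain ⟨q, q1, q2⟩ := quant (ν.map (embeddingReal X))
  have a : MeasurePreserving _ ν _ := ⟨e.measurable, rfl⟩
  refine ⟨e.invFun ∘ q, q1.invFun ∘ embeddingReal X,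
    (linv a e.measurable_invFun (.of_forall e.leftInverse_invFun)).comp q2,
    (linv q2 q1.measurable_invFun (.of_forall q1.leftInverse_invFun)).comp a, ?_⟩
  have : ∀ᵐ y ∂ν.map (embeddingReal X), y ∈ range q := by
    rw [← q2.map_eq]; exact q1.ae_map_iff.mpr (.of_forall mem_range_self)
  filter_upwards [a.quasiMeasurePreserving.ae this] with x ⟨u, c⟩
  rw [comp, comp, ← c, q1.leftInverse_invFun, c, e.leftInverse_invFun]

variable [NullSingletonClass μ]

instance (B : Set X) : NullSingletonClass μ[|B] := ⟨fun x => by simp [ProbabilityTheory.cond]⟩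

theorem sub {B : Set X} (hB : MeasurableSet B) (fin : μ B ≠ ∞) {a : ℝ≥0∞} (h : a ≤ μ B) :
    ∃ D ⊆ B, MeasurableSet D ∧ μ D = a := by
  rcases eq_or_ne (μ B) 0 with c | c
  · exact ⟨B, Subset.rfl, hB, c.trans (nonpos_iff_eq_zero.mp (c ▸ h)).symm⟩
  have := cond_isProbabilityMeasure_of_finite c fin
  obtain ⟨q, p, -, p1, -⟩ := qx μ[|B]
  have m : MeasurableSet {u : Ioo (0 : ℝ) 1 | u.1 < (a / μ B).toReal} := measurableSet_lt (by fun_prop) (by fun_prop)
  have l : a / μ B ≤ 1 := ENNReal.div_le_of_le_mul (by simpa)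
  refine ⟨B ∩ p ⁻¹' _, inter_subset_left, hB.inter (p1.measurable m), ?_⟩
  have := p1.measure_preimage m.nullMeasurableSet
  rw [cond_apply hB, U, (MeasurableEmbedding.subtype_coe measurableSet_Ioo).comap_apply,
    show Subtype.val '' {u : Ioo (0 : ℝ) 1 | u.1 < (a / μ B).toReal} = Ioo 0 (a / μ B).toReal from
      Subset.antisymm (by rintro _ ⟨u, b, rfl⟩; exact ⟨u.2.1, b⟩) fun y b =>
        ⟨⟨y, b.1, b.2.trans_le (ENNReal.toReal_le_of_le_ofReal zero_le_one (by simpa))⟩, b.2, rfl⟩,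
    Real.volume_Ioo, sub_zero, ENNReal.ofReal_toReal (l.trans_lt ENNReal.one_lt_top).ne] at this
  exact (ENNReal.mul_right_inj (a := (μ B)⁻¹) (by simpa) (by simpa)).mp (this.trans ENNReal.div_eq_inv_mul)

theorem iso {E B : Set X} (fin : μ B ≠ ∞) (h : μ E = μ B) : ∃ α β : X → X,
    MeasurePreserving α (μ.restrict E) (μ.restrict B) ∧ Measurable β ∧ ∀ᵐ x ∂μ.restrict E, β (α x) = x := by
  rcases eq_or_ne (μ B) 0 with c | c
  · rw [Measure.restrict_eq_zero.mpr c, Measure.restrict_eq_zero.mpr (h.trans c)]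
    exact ⟨id, id, .id _, measurable_id, by simp⟩
  have := cond_isProbabilityMeasure_of_finite c fin
  have := cond_isProbabilityMeasure_of_finite (h ▸ c) (h ▸ fin : μ E ≠ ∞)
  obtain ⟨q, p, q1, p1, a⟩ := qx μ[|E]
  obtain ⟨q', p', q2, p2, b⟩ := qx μ[|B]
  have k : ∀ᵐ u ∂U, p' (q' u) = u := by
    rw [← p2.map_eq, ae_map_iff p2.measurable.aemeasurable
      (measurableSet_eq_fun (p2.measurable.fun_comp q2.measurable) measurable_id')]
    filter_upwards [b] with x c
    rw [c]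
  refine ⟨q' ∘ p, q ∘ p', ?_, q1.measurable.comp p2.measurable, ?_⟩
  · simpa [ProbabilityTheory.cond, h, smul_smul, ENNReal.mul_inv_cancel c fin] using (q2.comp p1).smul_measure (μ B)
  · refine (Measure.ae_ennreal_smul_measure_iff (c := (μ E)⁻¹) (by simpa [h])).mp ?_
    filter_upwards [a, p1.quasiMeasurePreserving.ae k] with x c d
    rw [comp, comp, d, c]

theorem ext {P Q : Set X} (mP : MeasurableSet P) (mQ : MeasurableSet Q) (fin : μ P ≠ ∞) {f g : X → X}
    (hf : MeasurePreserving f (μ.restrict P) (μ.restrict Q)) (hg : Measurable g)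
    (h : ∀ᵐ x ∂μ.restrict P, g (f x) = x) : ∃ R ∈ Aut μ, ∀ᵐ x ∂μ, x ∈ P → R x = f x := by
  have e : μ P = μ Q := by simpa using hf.measure_preimage (s := univ) .univ
  obtain ⟨α, β, a, b, c⟩ := iso (E := Q \ P) (B := P \ Q) (ne_top_of_le_ne_top fin (measure_mono sdiff_subset)) (by
    refine (ENNReal.add_right_inj (ne_top_of_le_ne_top fin (measure_mono (inter_subset_left (t := Q))))).mp ?_
    rw [measure_inter_add_sdiff _ mQ, inter_comm, measure_inter_add_sdiff _ mP, e])
  obtain ⟨F, G, f1, f2, f3, f4⟩ := comb (μ := μ) (P := ![P, Q \ P, (P ∪ Q)ᶜ]) (Q := ![Q, P \ Q, (P ∪ Q)ᶜ])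
    (fun i => by fin_cases i <;> simp <;> measurability) (fun i => by fin_cases i <;> simp <;> measurability)
    (fun i j c => by fin_cases i <;> fin_cases j <;> simp_all [onFun, disjoint_left])
    (fun i j c => by fin_cases i <;> fin_cases j <;> simp_all [onFun, disjoint_left])
    ![f, α, id] ![g, β, id] (fun i => by fin_cases i; exacts [hf, a, .id _])
    (fun i => by fin_cases i; exacts [hg, b, measurable_id]) fun i => by fin_cases i; exacts [h, c, .of_forall fun _ => rfl]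
  rw [show ⋃ i, ![P, Q \ P, (P ∪ Q)ᶜ] i = univ by ext x; simp [Fin.exists_fin_succ]; tauto, Measure.restrict_univ] at f1 f3
  rw [show ⋃ i, ![Q, P \ Q, (P ∪ Q)ᶜ] i = univ by ext x; simp [Fin.exists_fin_succ]; tauto, Measure.restrict_univ] at f1
  obtain ⟨R, r1, r2⟩ := realize f1 f2 f3
  exact ⟨R, r1, r2.mono fun x a b => a.trans (f4 0 b)⟩

theorem swap {E B : Set X} (mE : MeasurableSet E) (mB : MeasurableSet B) (fin : μ B ≠ ∞) (h : μ E ≤ μ B) :
    ∃ R ∈ Aut μ, ∀ᵐ x ∂μ, x ∈ E → R x ∈ B := by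
  obtain ⟨D, d1, d2, d3⟩ := sub mB fin h
  obtain ⟨α, β, a, b, c⟩ := iso (d3 ▸ ne_top_of_le_ne_top fin h) d3.symm
  obtain ⟨R, r1, r2⟩ := ext mE d2 (ne_top_of_le_ne_top fin h) a b c
  refine ⟨R, r1, ?_⟩
  filter_upwards [r2, (ae_restrict_iff' mE).mp (a.quasiMeasurePreserving.ae (ae_restrict_mem d2))] with x s t u
  exact s u ▸ d1 (t u)

end Pool.Agent.H.MP_bfd36a_an
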