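import Pool.Agent.H.MP_bfd36a_an.A

set_option autoImplicit false

namespace Pool.Agent.H.MP_bfd36a_an

open Set Filter Topology MeasureTheory Function
open scoped ENNReal

variable {X : Type*} [MeasurableSpace X]

/-- mixing in infinite measure -/
def Mix (μ : Measure X) (T : Equiv.Perm X) : Prop :=
  ∀ A B, MeasurableSet A → MeasurableSet B → μ A ≠ ∞ → μ B ≠ ∞ →
    Tendsto (fun n : ℕ => μ (⇑(T ^ n) '' A ∩ B)) atTop (𝓝 0)

def Ds {X : Type*} (T : Equiv.Perm X) (H : ℕ) (W : Set X) : Prop := ∀ x ∈ W, ∀ m : ℤ, m ≠ 0 → |m| ≤ H → (T ^ m) x ∉ W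

theorem za {X : Type*} (T : Equiv.Perm X) (a b : ℤ) (x : X) : (T ^ a) ((T ^ b) x) = (T ^ (a + b)) x := by
  rw [zpow_add]; rfl

variable {μ : Measure X} {T : Equiv.Perm X}

theorem emb (hT : T ∈ Aut μ) : MeasurableEmbedding T :=
  (MeasurableEquiv.mk T hT.1.measurable hT.2.measurable).measurableEmbedding

theorem pre (hT : T ∈ Aut μ) (s : Set X) : μ (T ⁻¹' s) = μ s := hT.1.measure_preimage_emb (emb hT) s

theorem mp (hT : T ∈ Aut μ) (m : ℤ) : MeasurePreserving ⇑(T ^ m) μ μ := (zpow_mem hT m).1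

theorem zm (hT : T ∈ Aut μ) (h : Mix μ T) {Z : Set X} (mZ : MeasurableSet Z) (fin : μ Z ≠ ∞) {θ : ℝ≥0∞} (t0 : θ ≠ 0) :
    ∃ s : ℕ, ∀ m : ℤ, s ≤ |m| → μ (Z ∩ ⇑(T ^ m) ⁻¹' Z) ≤ θ := by
  obtain ⟨s, hs⟩ := eventually_atTop.mp ((h Z Z mZ mZ fin fin).eventually (ge_mem_nhds t0.bot_lt))
  refine ⟨s, fun m c => ?_⟩
  obtain ⟨n, rfl | rfl⟩ := m.eq_nat_or_neg <;> refine le_trans (le_of_eq ?_) (hs n (by simpa using c))
  · rw [← pre (pow_mem hT n) (_ '' _ ∩ _), preimage_inter, Equiv.preimage_image, zpow_natCast]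
  · rw [inter_comm, Equiv.image_eq_preimage_symm, zpow_neg, zpow_natCast]; rfl

variable [StandardBorelSpace X] [SigmaFinite μ]

theorem ap (hT : T ∈ Aut μ) (h : Mix μ T) : ∀ᵐ x ∂μ, ∀ m : ℤ, m ≠ 0 → (T ^ m) x ≠ x := by
  refine ae_all_iff.mpr fun m => eventually_imp_distrib_left.mpr fun m0 => ?_
  by_contra c
  obtain ⟨D, d1, d2, d3, d4⟩ := Measure.exists_subset_measure_lt_top (μ := μ) (r := 0)
    (measurableSet_eq_fun (mp hT m).measurable measurable_id) (pos_iff_ne_zero.mpr (by simpa [ae_iff] using c))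
  obtain ⟨s, hs⟩ := zm hT h d1 d4.ne (ENNReal.half_pos d3.ne').ne'
  have := hs (m * s) (by rw [abs_mul, Nat.abs_cast]; exact le_mul_of_one_le_left s.cast_nonneg (Int.one_le_abs m0))
  rw [inter_eq_left.mpr fun x e => by rwa [mem_preimage, zpow_mul, (IsFixedPt.perm_zpow (d2 e) s).eq]] at this
  exact this.not_gt (ENNReal.half_lt_self d3.ne' d4.ne)

variable [NullSingletonClass μ]

theorem col (hT : T ∈ Aut μ) (h : Mix μ T) {C : Set X} (fin : μ C ≠ ∞) {η : ℝ≥0∞} (e0 : η ≠ 0) (H : ℕ) :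
    ∃ W : ℕ → Set X, (∀ n, MeasurableSet (W n)) ∧ (∀ n, μ.restrict C (W n) ≤ η) ∧ (∀ n, Ds T H (W n)) ∧
      ∀ᵐ x ∂μ, ∃ n, x ∈ W n := by
  let _ := upgradeStandardBorel X
  have : IsFiniteMeasure (μ.restrict C) := isFiniteMeasure_restrict.mpr fin
  obtain ⟨V, hV⟩ := ((TopologicalSpace.countable_countableBasis X).mono
    (inter_subset_left (t := {V | μ.restrict C V ≤ η}))).insert ∅ |>.exists_eq_range (insert_nonempty _ _)
  have a : ∀ n, MeasurableSet (V n) ∧ μ.restrict C (V n) ≤ η := fun n => by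
    rcases hV.ge ⟨n, rfl⟩ with c | c
    · simp [c]
    · exact ⟨(TopologicalSpace.isOpen_of_mem_countableBasis c.1).measurableSet, c.2⟩
  refine ⟨fun n => V n ∩ ⋂ m ∈ {m : ℤ | m ≠ 0 ∧ |m| ≤ H}, ⇑(T ^ m) ⁻¹' (V n)ᶜ, fun n => (a n).1.inter
    (.biInter (to_countable _) fun m _ => (mp hT m).measurable (a n).1.compl),
    fun n => (measure_mono inter_subset_left).trans (a n).2,
    fun n x b m c d e => mem_iInter₂.mp b.2 m ⟨c, d⟩ e.1, (ap hT h).mono fun x b => ?_⟩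
  obtain ⟨O, o1, o2, o3⟩ := exists_isOpen_lt_of_lt (μ := μ.restrict C) {x} η (by simpa using e0.bot_lt)
  have f : ((fun m : ℤ => (T ^ m) x) '' {m : ℤ | m ≠ 0 ∧ |m| ≤ H}).Finite :=
    ((finite_Icc (-H : ℤ) H).subset fun m c => abs_le.mp c.2).image _
  obtain ⟨U, u1, u2, u3⟩ := (TopologicalSpace.isBasis_countableBasis X).exists_subset_of_mem_open
    (a := x) (by exact ⟨o1 rfl, fun ⟨m, c, d⟩ => b m c.1 d⟩) (o2.sdiff f.isClosed)
  obtain ⟨n, rfl⟩ := hV.le (.inr ⟨u1, (measure_mono (u3.trans sdiff_subset)).trans o3.le⟩)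
  exact ⟨n, u2, mem_iInter₂.mpr fun m c d => (u3 d).2 ⟨m, c, rfl⟩⟩

theorem mk (hT : T ∈ Aut μ) (h : Mix μ T) (H : ℕ) :
    ∃ M, MeasurableSet M ∧ Ds T H M ∧ ∀ᵐ x ∂μ, ∃ j : ℤ, |j| ≤ H ∧ (T ^ j) x ∈ M := by
  obtain ⟨W, w1, -, w2, w3⟩ := col hT h (C := ∅) (by simp) one_ne_zero H
  obtain ⟨M, m0, m1⟩ : ∃ M : ℕ → Set X, M 0 = ∅ ∧
      ∀ n, M (n + 1) = M n ∪ W n ∩ ⋂ j ∈ {j : ℤ | |j| ≤ H}, ⇑(T ^ j) ⁻¹' (M n)ᶜ :=
    ⟨fun n => n.rec ∅ fun n M => M ∪ W n ∩ ⋂ j ∈ {j : ℤ | |j| ≤ H}, ⇑(T ^ j) ⁻¹' Mᶜ, rfl, fun _ => rfl⟩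
  have a : ∀ n, MeasurableSet (M n) ∧ Ds T H (M n) := fun n => by
    induction n with
    | zero => simp [m0, Ds]
    | succ n ih =>
      rw [m1]
      refine ⟨ih.1.union ((w1 n).inter (.biInter (to_countable _) fun m _ => (mp hT m).measurable ih.1.compl)), ?_⟩
      rintro x (b | b) m c d (e | e)
      exacts [ih.2 x b m c d e, mem_iInter₂.mp e.2 (-m) (by simpa) (by simpa [za]), mem_iInter₂.mp b.2 m d e,
        w2 n x b.1 m c d e.1]
  have mo : Monotone M := monotone_nat_of_le_succ fun n => m1 n ▸ subset_union_left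
  refine ⟨⋃ n, M n, .iUnion fun n => (a n).1, fun x b m c d e => ?_, w3.mono fun x ⟨n, b⟩ => ?_⟩
  · obtain ⟨i, b⟩ := mem_iUnion.mp b
    obtain ⟨j, e⟩ := mem_iUnion.mp e
    exact (a (max i j)).2 x (mo (le_max_left _ _) b) m c d (mo (le_max_right _ _) e)
  · by_contra! c
    exact c 0 (by simp) (mem_iUnion.mpr ⟨n + 1, m1 n ▸ .inr ⟨b, mem_iInter₂.mpr fun j d e =>
      c j d (mem_iUnion.mpr ⟨n, e⟩)⟩⟩)

theorem mk2 (hT : T ∈ Aut μ) (h : Mix μ T) {A : Set X} (mA : MeasurableSet A) (fin : μ A ≠ ∞) {ε : ℝ≥0∞} (e0 : ε ≠ 0)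
    (N : ℕ) : ∃ (L : ℕ) (M : Set X), MeasurableSet M ∧ (∀ᵐ x ∂μ, ∃ t ≤ L, (T ^ (-t : ℤ)) x ∈ M) ∧
      μ (A ∩ {x | ∃ j : ℤ, |j| ≤ N ∧ (T ^ j) x ∈ M}) ≤ ε := by
  obtain ⟨K, hK⟩ := ENNReal.exists_nat_mul_gt e0 fin
  obtain ⟨M, m1, m2, m3⟩ := mk hT h (K * (2 * N + 1))
  obtain ⟨s, hs⟩ : ∃ s : ℕ, μ (A ∩ {x | ∃ j : ℤ, |j| ≤ N ∧ (T ^ j) x ∈ ⇑(T ^ (s * (2 * N + 1) : ℤ)) ⁻¹' M}) ≤ ε := by
    by_contra! c
    refine hK.not_ge (le_trans (by simpa using Finset.card_nsmul_le_sum (Finset.range K) _ _ fun s _ => (c s).le) ?_)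
    rw [← measure_biUnion_finset]
    · exact measure_mono (by simp)
    · refine fun s a t b g => disjoint_left.mpr fun x ⟨_, i, i1, i2⟩ ⟨_, j, j1, j2⟩ => ?_
      simp only [Finset.coe_range, mem_Iio, abs_le, mem_preimage, za] at *
      refine m2 _ i2 (t * (2 * N + 1) + j - (s * (2 * N + 1) + i)) (fun e => ?_) ?_ (by simpa [za])
      · rcases Ne.lt_or_gt g with d | d <;> zify at d <;> nlinarith
      · zify at a b
        push_cast
        rw [abs_le]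
        constructor <;> nlinarith
    · refine fun s _ => mA.inter ?_
      simp only [ofPred_exists, ofPred_and]
      exact .iUnion fun j => (MeasurableSet.const _).inter ((mp hT j).measurable ((mp hT _).measurable m1))
  refine ⟨2 * (K * (2 * N + 1)), _, (mp hT _).measurable m1, ?_, hs⟩
  filter_upwards [(mp hT (s * (2 * N + 1) - (K * (2 * N + 1) : ℕ))).quasiMeasurePreserving.ae m3] with x ⟨j, a, b⟩
  rw [abs_le] at a
  refine ⟨((K * (2 * N + 1) : ℕ) - j).toNat, by omega, ?_⟩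
  rw [mem_preimage, za, Int.toNat_of_nonneg (by omega)]
  rw [za] at b
  convert b using 3
  ring

theorem tb1 (hμ : μ univ = ∞) (hT : T ∈ Aut μ) (h : Mix μ T) {c η : ℝ≥0∞} (hc : c ≠ ∞) (e0 : η ≠ 0) :
    ∃ B, MeasurableSet B ∧ μ B ≠ ∞ ∧ c ≤ μ B ∧ ∀ m : ℤ, m ≠ 0 → μ (B ∩ ⇑(T ^ m) ⁻¹' B) ≤ η + η + η := by
  obtain ⟨C, mC, -, c1, c2⟩ := Measure.exists_subset_measure_lt_top (μ := μ) (r := c + 1) .univ (by simp [hμ, hc.lt_top])
  obtain ⟨H, hH⟩ := zm hT h mC c2.ne e0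
  obtain ⟨W, w1, w2, w3, w4⟩ := col hT h c2.ne e0 H
  obtain ⟨D, hD⟩ : ∃ D : ℕ → Set X, ∀ n, D n = disjointed W n ∩ C := ⟨_, fun _ => rfl⟩
  have d1 : ∀ n, MeasurableSet (D n) := fun n => hD n ▸ (MeasurableSet.disjointed w1 n).inter mC
  have d2 : Pairwise (Disjoint on D) := fun i j e =>
    (disjoint_disjointed W e).mono (hD i ▸ inter_subset_left) (hD j ▸ inter_subset_left)
  have d3 : ∀ n, D n ⊆ W n ∩ C := fun n => hD n ▸ inter_subset_inter_left _ (disjointed_subset _ _)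
  have d4 : ∀ n, μ (D n) ≤ η := fun n => (measure_mono (d3 n)).trans (Measure.restrict_apply (w1 n) ▸ w2 n)
  obtain ⟨K, hK⟩ : ∃ K, c + 1 < ∑ n ∈ Finset.range K, μ (D n) := by
    rw [← lt_iSup_iff, ← ENNReal.tsum_eq_iSup_nat, ← measure_iUnion d2 d1]
    refine c1.trans_le (measure_mono_ae (w4.mono fun x a b => ?_))
    simp only [hD, ← iUnion_inter, iUnion_disjointed]
    exact ⟨mem_iUnion.mpr a, b⟩
  obtain ⟨θ, t0, t1⟩ := ENNReal.exists_nnreal_pos_mul_lt (a := K * 2) (b := min η 1) (by finiteness) (by simp [e0])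
  have t0 : (θ : ℝ≥0∞) ≠ 0 := by simpa using t0.ne'
  have : ∀ j : ℕ, ∃ B, MeasurableSet B ∧ μ B ≠ ∞ ∧ ∑ n ∈ Finset.range j, μ (D n) ≤ μ B + θ * (j * 2) ∧ ∀ m : ℤ, m ≠ 0 →
      μ (B ∩ ⇑(T ^ m) ⁻¹' B) ≤ ∑ n ∈ Finset.range j, μ (D n ∩ ⇑(T ^ m) ⁻¹' D n) + η + θ * (j * 2) := fun j => by
    induction j with
    | zero => exact ⟨∅, .empty, by simp, by simp, by simp⟩
    | succ j ih =>
      obtain ⟨B, b1, b2, b3, b4⟩ := ih
      have f := ne_top_of_le_ne_top c2.ne (measure_mono ((d3 j).trans inter_subset_right))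
      obtain ⟨s, hs⟩ := zm hT h (b1.union (d1 j)) (measure_union_ne_top b2 f) t0
      have k : ∀ (P Q : Set X) (m : ℤ), P ⊆ B ∪ D j → Q ⊆ B ∪ D j → s ≤ |m| → μ (P ∩ ⇑(T ^ m) ⁻¹' Q) ≤ θ :=
        fun P Q m a b c => (measure_mono (by gcongr)).trans (hs m c)
      have p := pre (zpow_mem hT (2 * s : ℤ))
      have l := subset_union_left (s := B) (t := D j)
      have r := subset_union_right (s := B) (t := D j)
      refine ⟨B ∪ ⇑(T ^ (2 * s : ℤ)) ⁻¹' D j, b1.union ((mp hT _).measurable (d1 j)),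
        measure_union_ne_top b2 ((p _).trans_ne f), ?_, fun m m0 => ?_⟩
      · rw [Finset.sum_range_succ, ← p (D j)]
        refine (add_le_add_left b3 _).trans ?_
        rw [add_right_comm, ← measure_union_add_inter _ ((mp hT _).measurable (d1 j)), add_assoc]
        gcongr
        refine (add_le_add_left (k _ _ _ l r (by rw [abs_of_nonneg] <;> omega)) _).trans ?_
        push_cast
        exact le_of_le_of_eq le_self_add (show _ + (θ : ℝ≥0∞) = _ by ring)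
      have u : μ ((B ∪ ⇑(T ^ (2 * s : ℤ)) ⁻¹' D j) ∩ ⇑(T ^ m) ⁻¹' (B ∪ ⇑(T ^ (2 * s : ℤ)) ⁻¹' D j)) ≤
          μ (B ∩ ⇑(T ^ m) ⁻¹' B) + μ (B ∩ ⇑(T ^ (2 * s + m)) ⁻¹' D j) + μ (D j ∩ ⇑(T ^ (m - 2 * s)) ⁻¹' B) +
            μ (D j ∩ ⇑(T ^ m) ⁻¹' D j) := by
        rw [← p (D j ∩ _), ← p (D j ∩ ⇑(T ^ m) ⁻¹' D j)]
        refine le_trans (measure_mono ?_) ((measure_union_le _ _).trans (add_le_add_left
          ((measure_union_le _ _).trans (add_le_add_left (measure_union_le _ _) _)) _))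
        rintro x ⟨a | a, b | b⟩ <;> simp_all [za, add_comm]
      refine u.trans ?_
      rw [Finset.sum_range_succ]
      push_cast
      have v := (pre (zpow_mem hT (2 * s + m)) _).trans_le (d4 j)
      rcases le_or_gt (s : ℤ) |2 * s + m| with a | a <;> rcases le_or_gt (s : ℤ) |m - 2 * s| with b | b
      · grw [b4 m m0, k _ _ _ l r a, k _ _ _ r l b]
        exact le_of_eq (by ring)
      · grw [k _ _ m l l (by rw [abs_lt] at b; rw [le_abs]; omega), k _ _ _ l r a,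
          measure_mono (inter_subset_left (s := D j) (t := ⇑(T ^ (m - 2 * s)) ⁻¹' B)), d4 j]
        exact le_of_le_of_eq (le_self_add (b := ∑ n ∈ Finset.range j, μ (D n ∩ ⇑(T ^ m) ⁻¹' D n) + θ * (j * 2))) (by ring)
      · grw [k _ _ m l l (by rw [abs_lt] at a; rw [le_abs]; omega), k _ _ _ r l b,
          measure_mono (inter_subset_right (s := B)), v]
        exact le_of_le_of_eq (le_self_add (b := ∑ n ∈ Finset.range j, μ (D n ∩ ⇑(T ^ m) ⁻¹' D n) + θ * (j * 2))) (by ring)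
      · rw [abs_lt] at a b; omega
  obtain ⟨B, b1, b2, b3, b4⟩ := this K
  refine ⟨B, b1, b2, (ENNReal.add_le_add_iff_right ENNReal.one_ne_top).mp (hK.le.trans (b3.trans ?_)),
    fun m m0 => (b4 m m0).trans ?_⟩
  · grw [t1, min_le_right]
  grw [t1, min_le_left]
  gcongr
  rcases le_total (H : ℤ) |m| with a | a
  · refine le_trans ?_ (hH m a)
    rw [← measure_biUnion_finset (fun i _ j _ e => (d2 e).mono inter_subset_left inter_subset_left)
      fun n _ => (d1 n).inter ((mp hT m).measurable (d1 n))]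
    exact measure_mono (iUnion₂_subset fun n _ x a => ⟨(d3 n a.1).2, (d3 n a.2).2⟩)
  · exact (Finset.sum_eq_zero fun n _ => measure_mono_null
      (fun x b => (w3 n x (d3 n b.1).1 m m0 a (d3 n b.2).1).elim) measure_empty).trans_le zero_le

theorem tb (hμ : μ univ = ∞) (hT : T ∈ Aut μ) (h : Mix μ T) {c η : ℝ≥0∞} (hc : c ≠ ∞) (e0 : η ≠ 0) (L : ℕ) :
    ∃ B, MeasurableSet B ∧ μ B ≠ ∞ ∧ c ≤ μ B ∧ Ds T L B ∧ ∀ m : ℤ, m ≠ 0 → μ (B ∩ ⇑(T ^ m) ⁻¹' B) ≤ η := by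
  obtain ⟨θ, t0, t1⟩ := ENNReal.exists_nnreal_pos_mul_lt (a := 3) (b := η) (by finiteness) e0
  let I := (Finset.Icc (-L : ℤ) L).erase 0
  obtain ⟨B, b1, b2, b3, b4⟩ := tb1 hμ hT h (c := c + I.card • (θ + θ + θ : ℝ≥0∞)) (η := θ)
    (by rw [nsmul_eq_mul]; finiteness) (by simpa using t0.ne')
  refine ⟨B \ ⋃ m ∈ I, B ∩ ⇑(T ^ m) ⁻¹' B, b1.diff (I.measurableSet_biUnion fun m _ => b1.inter ((mp hT m).measurable b1)),
    ne_top_of_le_ne_top b2 (measure_mono sdiff_subset), ?_, fun x a m c d e => a.2 (mem_biUnion (x := m)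
      (by simpa [I, c, abs_le] using d) ⟨a.1, e.1⟩), fun m m0 => le_trans (measure_mono (by
        gcongr <;> exact sdiff_subset)) ((b4 m m0).trans (le_of_eq_of_le (by ring) t1.le))⟩
  refine (ENNReal.add_le_add_iff_right (by rw [nsmul_eq_mul]; finiteness)).mp (b3.trans (le_trans
    (measure_mono (subset_sdiff_union _ _)) ((measure_union_le _ _).trans (add_le_add_right
      ((measure_biUnion_finset_le _ _).trans (Finset.sum_le_card_nsmul _ _ _ fun m a => b4 m ?_)) _))))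
  exact (Finset.mem_erase.mp a).1

end Pool.Agent.H.MP_bfd36a_an
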