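import Pool.Agent.H.MP_bfd36a_an.B

set_option autoImplicit false

namespace Pool.Agent.H.MP_bfd36a_an

open Set Filter Topology MeasureTheory Function
open scoped ENNReal symmDiff

variable {X : Type*} [MeasurableSpace X] {μ : Measure X} {S T : Equiv.Perm X}

theorem sd (hS : S ∈ Aut μ) (hT : T ∈ Aut μ) {A D : Set X} (h : D ⊆ A) :
    μ ((S '' D) ∆ (T '' D)) ≤ 2 * μ {x ∈ A | S x ≠ T x} := by
  rw [two_mul]
  refine (measure_union_le _ _).trans (add_le_add ((pre hS _).symm.trans_le (measure_mono ?_))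
    ((pre hT _).symm.trans_le (measure_mono ?_))) <;> intro x ⟨a, b⟩
  exacts [⟨h (S.injective.mem_set_image.mp a), fun c => b ⟨x, S.injective.mem_set_image.mp a, c.symm⟩⟩,
    ⟨h (T.injective.mem_set_image.mp a), fun c => b ⟨x, T.injective.mem_set_image.mp a, c⟩⟩]

theorem ed {P Q : Set X} {c : ℝ≥0∞} (a : μ P ≠ ∞) (b : μ Q ≠ ∞) (d : μ P ≤ μ Q + c) (e : μ Q ≤ μ P + c) :
    edist (μ.real P) (μ.real Q) ≤ c := by
  rcases eq_or_ne c ∞ with rfl | f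
  · exact le_top
  have d := ENNReal.toReal_mono (by finiteness) d
  have e := ENNReal.toReal_mono (by finiteness) e
  rw [ENNReal.toReal_add (by assumption) f] at d e
  rw [edist_dist, ENNReal.ofReal_le_iff_le_toReal f, Real.dist_eq, abs_le, Measure.real, Measure.real]
  constructor <;> linarith

theorem im (hS : S ∈ Aut μ) (D E : Set X) : μ (S '' D ∩ E) = μ (D ∩ S ⁻¹' E) := by
  rw [← pre hS, preimage_inter, Equiv.preimage_image]

variable [StandardBorelSpace X] [SigmaFinite μ] [NullSingletonClass μ]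

theorem core (hμ : μ univ = ∞) (hS : S ∈ Aut μ) (hT : T ∈ Aut μ) (mS : Mix μ S) (mT : Mix μ T) {A : Set X}
    (mA : MeasurableSet A) (fin : μ A ≠ ∞) {ε : ℝ≥0∞} (e0 : ε ≠ 0) : ∃ R ∈ Aut μ, ∃ N : ℕ, 1 ≤ N ∧
      (∀ n : ℤ, |n| ≤ N → μ {x ∈ A | (S ^ n) x ≠ ((R⁻¹ * T * R) ^ n) x} ≤ ε) ∧
      ∀ n : ℤ, N ≤ |n| → μ (A ∩ ⇑(S ^ n) ⁻¹' A) ≤ ε ∧ μ (A ∩ ⇑((R⁻¹ * T * R) ^ n) ⁻¹' A) ≤ ε + ε := by
  classical
  obtain ⟨N, N1, hN⟩ : ∃ N : ℕ, 1 ≤ N ∧ ∀ n : ℤ, N ≤ |n| → μ (A ∩ ⇑(S ^ n) ⁻¹' A) ≤ ε :=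
    (zm hS mS mA fin e0).elim fun s h => ⟨s + 1, by omega, fun n c => h n (by omega)⟩
  obtain ⟨L, M, m1, m2, m3⟩ := mk2 hS mS mA fin e0 N
  obtain ⟨E, hE⟩ : ∃ E, E = M ∩ ⋃ t ∈ Finset.range (L + 1), ⇑(S ^ (t : ℤ)) ⁻¹' A := ⟨_, rfl⟩
  have mE : MeasurableSet E := hE ▸ m1.inter (Finset.measurableSet_biUnion _ fun t _ => (mp hS t).measurable mA)
  have fE : μ E ≠ ∞ := hE ▸ ((measure_mono inter_subset_right).trans_lt (measure_biUnion_lt_top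
    (Finset.finite_toSet _) fun t _ => (pre (zpow_mem hS _) _).trans_lt fin.lt_top)).ne
  let I := Finset.range (L + 1) ×ˢ Finset.range (L + 1)
  obtain ⟨η, t0, t1⟩ := ENNReal.exists_nnreal_pos_mul_lt (a := I.card) (b := ε) (by finiteness) e0
  obtain ⟨B, b1, b2, b3, b4, b5⟩ := tb hμ hT mT fE (η := η) (by simpa using t0.ne') (L + N)
  obtain ⟨ρ, r1, r2⟩ := swap mE b1 b2 b3
  obtain ⟨P, hP⟩ : ∃ P : ℕ → Set X, ∀ k x, x ∈ P k ↔ k ≤ L + N ∧ (S ^ (-k : ℤ)) x ∈ E ∩ ρ ⁻¹' B ∧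
    ∀ j < k, (S ^ (-j : ℤ)) x ∉ M := ⟨fun k => {x | _}, fun _ _ => Iff.rfl⟩
  have mP : ∀ k, MeasurableSet (P k) := fun k => by
    rw [show P k = {_x | k ≤ L + N} ∩ (⇑(S ^ (-k : ℤ)) ⁻¹' (E ∩ ρ ⁻¹' B) ∩ ⋂ j < k, ⇑(S ^ (-j : ℤ)) ⁻¹' Mᶜ) by
      ext; simp [hP]]
    exact (MeasurableSet.const _).inter (((mp hS _).measurable (mE.inter (r1.1.measurable b1))).inter
      (.biInter (to_countable _) fun j _ => (mp hS _).measurable m1.compl))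
  obtain ⟨φ, hφ⟩ : ∃ φ : ℕ → Equiv.Perm X, ∀ k, φ k = T ^ (k : ℤ) * ρ * S ^ (-k : ℤ) := ⟨_, fun _ => rfl⟩
  have p1 : ∀ k, φ k ∈ Aut μ := fun k => hφ k ▸ mul_mem (mul_mem (zpow_mem hT _) r1) (zpow_mem hS _)
  have p2 : ∀ k x, φ k x = (T ^ (k : ℤ)) (ρ ((S ^ (-k : ℤ)) x)) := fun k x => by rw [hφ]; rfl
  obtain ⟨f, g, f1, f2, f3, f4⟩ := comb (μ := μ) mP (Q := fun k => φ k '' P k)
    (fun k => (emb (p1 k)).measurableSet_image.mpr (mP k))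
    (pairwise_disjoint_on _ |>.mpr fun i j c => disjoint_left.mpr fun x a b =>
      ((hP _ _).mp b).2.2 i c (hE ▸ ((hP _ _).mp a).2.1.1).1)
    (fun i j c => disjoint_left.mpr fun _ ⟨x, a, d⟩ ⟨y, b, e⟩ => by
      rw [hP] at a b
      refine b4 _ a.2.1.2 (i - j) (by omega) (by rw [abs_le]; omega) ?_
      rw [sub_eq_neg_add, ← za, ← p2, d, ← e, p2, za]
      simpa using b.2.1.2)
    (fun k => φ k) (fun k => ⇑(φ k)⁻¹) (fun k => (p1 k).1.restrict_image_emb (emb (p1 k)) _)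
    (fun k => (p1 k).2.measurable) fun k => .of_forall (φ k).symm_apply_apply
  obtain ⟨R, s1, s2⟩ := ext (.iUnion mP) (.iUnion fun k => (emb (p1 k)).measurableSet_image.mpr (mP k))
    ((measure_mono (iUnion_subset fun k x a => mem_biUnion (s := Iic (L + N)) (t := fun k : ℕ => ⇑(S ^ (-k : ℤ)) ⁻¹' E)
      ((hP _ _).mp a).1 ((hP _ _).mp a).2.1.1)).trans_lt (measure_biUnion_lt_top (finite_Iic _) fun t _ =>
        (pre (zpow_mem hS _) _).trans_lt fE.lt_top)).ne f1 f2 f3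
  have s3 : ∀ᵐ x ∂μ, ∀ k, x ∈ P k → R x = (T ^ (k : ℤ)) (ρ ((S ^ (-k : ℤ)) x)) :=
    s2.mono fun x a k b => (a (mem_iUnion.mpr ⟨k, b⟩)).trans ((f4 k b).trans (p2 k x))
  have s4 : ∀ᵐ x ∂μ, x ∈ A → ∃ k ≤ L, x ∈ P k := by
    filter_upwards [m2, ae_all_iff.mpr fun k : ℕ => (mp hS (-k)).quasiMeasurePreserving.ae r2] with x a b c
    have d := Nat.find_spec a
    have e : (S ^ (-(Nat.find a) : ℤ)) x ∈ E := hE ▸ ⟨d.2, mem_biUnion (Finset.mem_range_succ_iff.mpr d.1) (by simpa [za])⟩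
    exact ⟨_, d.1, (hP _ _).mpr ⟨by omega, ⟨e, b _ e⟩, fun j u v => Nat.find_min a u ⟨by omega, v⟩⟩⟩
  have u : ∀ (n : ℤ) x, R (((R⁻¹ * T * R) ^ n) x) = (T ^ n) (R x) := fun n x => by
    have := conj_zpow (a := R⁻¹) (b := T) (i := n)
    rw [inv_inv] at this
    simp [this]
  refine ⟨R, s1, N, N1, fun n c => le_trans (measure_mono_ae ?_) m3, fun n c => ⟨hN n c, ?_⟩⟩
  · filter_upwards [s3, (mp hS n).quasiMeasurePreserving.ae s3, s4] with x a b d ⟨e, v⟩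
    refine ⟨e, by_contra fun w => v (R.injective ?_)⟩
    simp only [mem_ofPred_eq, not_exists, not_and] at w
    obtain ⟨k, d, d'⟩ := d e
    have d1 := (hP _ _).mp d'
    rw [abs_le] at c
    have k1 : N < k := not_le.mp fun c => w (-k) (by simpa) (hE ▸ d1.2.1.1).1
    obtain ⟨l, hl⟩ : ∃ l : ℕ, (l : ℤ) = n + k := ⟨(n + k).toNat, by omega⟩
    have e1 : (S ^ (-l : ℤ)) ((S ^ n) x) = (S ^ (-k : ℤ)) x := by rw [za, hl]; ring_nf
    rw [u, a k d', b l ((hP _ _).mpr ⟨by omega, e1 ▸ d1.2.1, fun j c => ?_⟩), e1, za, hl]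
    rw [za]
    rcases le_or_gt (-N : ℤ) (-j + n) with z | z
    · exact w _ (by rw [abs_le]; omega)
    · convert d1.2.2 (j - n).toNat (by omega) using 4
      omega
  have h := mul_mem (mul_mem (inv_mem s1) hT) s1
  refine le_trans (measure_mono_ae (t := A ∩ ⇑(S ^ n) ⁻¹' A ∪ ⋃ i ∈ I, {_x | n + i.1 - i.2 ≠ 0} ∩
    ⇑(ρ * S ^ (-i.1 : ℤ)) ⁻¹' (B ∩ ⇑(T ^ (n + i.1 - i.2)) ⁻¹' B)) ?_) ((measure_union_le _ _).trans (add_le_add (hN n c)
      ((measure_biUnion_finset_le _ _).trans ((Finset.sum_le_card_nsmul _ _ (η : ℝ≥0∞) fun i _ => ?_).trans ?_))))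
  · filter_upwards [s3, (mp h n).quasiMeasurePreserving.ae s3, s4, (mp h n).quasiMeasurePreserving.ae s4]
      with x a b c d ⟨e, v⟩
    obtain ⟨k, k1, k2⟩ := c e
    obtain ⟨l, l1, l2⟩ := d v
    have w := congrArg (T ^ (-l : ℤ) :) ((b l l2).symm.trans (u n x))
    rw [a k k2, za, za, za, neg_add_cancel, zpow_zero, show -l + n + k = n + k - l by ring] at w
    by_cases z : n + k - l = 0
    · refine .inl ⟨e, ?_⟩
      rw [z, zpow_zero] at w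
      have := congrArg (S ^ (l : ℤ) :) (ρ.injective w)
      rw [za, za, add_neg_cancel, zpow_zero, show (l : ℤ) + -k = n by omega] at this
      exact mem_preimage.mpr (this ▸ v)
    · exact .inr (mem_biUnion (x := (k, l)) (by simp [I]; omega)
        ⟨z, ((hP _ _).mp k2).2.1.2, show _ ∈ B from w ▸ ((hP _ _).mp l2).2.1.2⟩)
  · by_cases z : n + i.1 - i.2 = 0
    · simp [z]
    · exact (measure_mono inter_subset_right).trans ((pre (mul_mem r1 (zpow_mem hS _)) _).trans_le (b5 _ z))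
  · rw [nsmul_eq_mul, mul_comm]; exact t1.le

end Pool.Agent.H.MP_bfd36a_an
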